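import Mathlib
import Pool.Agent.Helper10.Sch.Avg

/-!
# Schur numbers: partitions into sum-free sets of bounded doubling

Question Q1 asks for a constant `C` such that `{1, ..., N}` can be covered by `n` sum-free sets only if
`N ≤ C ^ n`. We prove such a bound for all coverings in which all classes except at most
`O(n / log n)` of them have bounded doubling, `|S + S| ≤ K |S|`. The classes need not lie in
`{1, ..., N}`, so it is enough that each class of a partition is contained in a finite sum-free set of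
bounded doubling. More generally, it is enough that there is a finite set `X` with no difference in `S`
and with `|S + X - X| ≤ K |X|`.

Remarks (not part of the theorem). The last condition is, up to a constant factor, the same as a bound
for the fractional chromatic number of the Cayley graph of the integers with connection set `S`: if `B`
is a subset of `[0, L)` with no difference in `S` and with at least `L / c` elements, then
`|S + B - B| ≤ (2 c + o(1)) |B|` as `L → ∞`. In the recursive constructions of Schur and of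
Abbott-Moser (from a fixed seed) each class lies in a periodic sum-free set of density at least some
constant, so they are coverings of the kind considered here.

Proof. Let `D = S + X - X`. A greedy choice gives a set `T` in `[0, L)` of at least
`2 L / (3 |D| + 1)` integers whose positive differences avoid `D`, `-D` and `X - X`; then `X + T` has no
difference in `S` and has `|X| |T|` elements. Averaging over independent translates of such sets, one for
each class, one finds a set of at least `(N + 1) / ∏ c i` integers in `[0, N]`, all of whose positive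
differences are in the remaining classes, and Schur's argument applies to that set. For a sum-free set
`S` of small doubling, `X = S` will do, by the Pluennecke-Ruzsa inequality.
-/

set_option autoImplicit false

namespace Pool.Agent.Results.MP_a603b0_co.BoundedDoubling

open scoped Pointwise

/-- `S` is sum-free: no `x + y = z` in `S`, where `x = y` is allowed. -/
def SumFree (S : Set ℤ) : Prop := ∀ x ∈ S, ∀ y ∈ S, x + y ∉ S

/-- No two elements of `X` differ by an element of `S`. -/
def NoDiff (S X : Finset ℤ) : Prop := ∀ x ∈ X, ∀ y ∈ X, x - y ∉ S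

/-- The class `S` has cost at most `c`, for one of three reasons:
* for every `L` there are at least `L / c` integers in `[0, L)` no two of which differ by an element
  of `S`;
* some finite nonempty set `X` of integers has no two elements differing by an element of `S`, and
  `c ≥ (3 |S + X - X| + 1) / (2 |X|)`; this is true if `|S + X - X| ≤ K |X|` and `c ≥ (3 K + 1) / 2`;
* `S` is sum-free and `c ≥ (3 (|S + S| / |S|) ^ 3 + 1) / 2`. -/
def Cost (S : Finset ℤ) (c : ℝ) : Prop :=
  (∀ L : ℕ, ∃ B : Finset ℤ, B ⊆ Finset.Ico 0 (L : ℤ) ∧ NoDiff S B ∧ (L : ℝ) ≤ c * B.card) ∨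
  (∃ X : Finset ℤ, X.Nonempty ∧ NoDiff S X ∧
    3 * ((S + X - X).card : ℝ) + 1 ≤ 2 * c * X.card) ∨
  (SumFree S ∧ 3 * ((S + S).card : ℝ) ^ 3 + (S.card : ℝ) ^ 3 ≤ 2 * c * (S.card : ℝ) ^ 3)

theorem dense_of_cost {S : Finset ℤ} (hS : S.Nonempty) {c : ℝ} (h : Cost S c) :
    Pool.Agent.Helper10.Sch.Dense S c := by
  rcases h with h | ⟨X, hX, hf, hc⟩ | ⟨hf, hc⟩
  · refine ⟨0, fun L => ?_⟩
    obtain ⟨B, h1, h2, h3⟩ := h L
    refine ⟨B, fun b hb => ?_, h2, h3⟩
    have := Finset.mem_Ico.1 (h1 hb)
    push_cast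
    omega
  · exact Pool.Agent.Helper10.Sch.dense_of_set hS hX hf hc
  · exact Pool.Agent.Helper10.Sch.dense_of_doubling hS (Finset.Subset.refl _) hf hc

theorem sm_le (m : ℕ) : (∑ k ∈ Finset.range (m + 1), (m.descFactorial k : ℝ)) ≤ ((m : ℝ) + 1) ^ m := by
  have h : ∀ k ∈ Finset.range (m + 1),
      (m.descFactorial k : ℝ) ≤ (m : ℝ) ^ k * 1 ^ (m - k) * (m.choose k : ℝ) := by
    intro k hk
    rw [Finset.mem_range] at hk
    have h1 : (m.descFactorial k : ℝ) ≤ (m : ℝ) ^ k := by exact_mod_cast Nat.descFactorial_le_pow m k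
    have h2 : (1 : ℝ) ≤ (m.choose k : ℝ) := by exact_mod_cast Nat.choose_pos (by omega)
    rw [one_pow, mul_one]
    calc (m.descFactorial k : ℝ) ≤ (m : ℝ) ^ k * 1 := by rw [mul_one]; exact h1
      _ ≤ (m : ℝ) ^ k * (m.choose k : ℝ) := mul_le_mul_of_nonneg_left h2 (by positivity)
  rw [add_pow]
  exact Finset.sum_le_sum h

theorem main (N n m : ℕ) (S : Fin n → Finset ℤ) (T : Fin m → Set ℤ) (c : Fin n → ℝ)
    (hS : ∀ i, (S i).Nonempty) (hc : ∀ i, Cost (S i) (c i)) (hT : ∀ j, SumFree (T j))
    (hcov : ∀ k : ℤ, 1 ≤ k → k ≤ N → (∃ i, k ∈ S i) ∨ ∃ j, k ∈ T j) :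
    (N : ℝ) + 1 ≤ (∑ k ∈ Finset.range (m + 1), (m.descFactorial k : ℝ)) * ∏ i, c i := by
  have h := Pool.Agent.Helper10.Sch.avg N S c (fun i => dense_of_cost (hS i) (hc i)) T hT hcov
  have e : ((Pool.Agent.Helper10.Sch.sm m : ℕ) : ℝ) =
      ∑ k ∈ Finset.range (m + 1), (m.descFactorial k : ℝ) := by
    unfold Pool.Agent.Helper10.Sch.sm
    push_cast
    rfl
  rw [e] at h
  exact h

/-- Let `{1, ..., N}` be covered by `n` finite nonempty sets `S i` of costs at most `c i` and `m`
arbitrary sum-free sets. Then `N + 1 ≤ (∑_{k ≤ m} m! / k!) ∏ c i`. Consequently, if `{1, ..., N}` is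
covered by `p = n + m` sum-free sets, `n` of which are finite and nonempty with `|S + S| ≤ K |S|`, and
`m ≤ A p / log (p + 1)`, then `N < C ^ p` with `C = exp A * (3 K ^ 3 + 1) / 2`. -/
theorem result :
    (∀ (N n m : ℕ) (S : Fin n → Finset ℤ) (T : Fin m → Set ℤ) (c : Fin n → ℝ),
      (∀ i, (S i).Nonempty) → (∀ i, Cost (S i) (c i)) → (∀ j, SumFree (T j)) →
      (∀ k : ℤ, 1 ≤ k → k ≤ N → (∃ i, k ∈ S i) ∨ ∃ j, k ∈ T j) →
      (N : ℝ) + 1 ≤ (∑ k ∈ Finset.range (m + 1), (m.descFactorial k : ℝ)) * ∏ i, c i) ∧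
    (∀ (N n m : ℕ) (S : Fin n → Finset ℤ) (T : Fin m → Set ℤ) (A K : ℝ), 1 ≤ K →
      (∀ i, (S i).Nonempty) → (∀ i, SumFree (S i)) →
      (∀ i, ((S i + S i).card : ℝ) ≤ K * (S i).card) → (∀ j, SumFree (T j)) →
      (∀ k : ℤ, 1 ≤ k → k ≤ N → (∃ i, k ∈ S i) ∨ ∃ j, k ∈ T j) →
      (m : ℝ) * Real.log ((n : ℝ) + m + 1) ≤ A * ((n : ℝ) + m) →
      (N : ℝ) + 1 ≤ (Real.exp A * ((3 * K ^ 3 + 1) / 2)) ^ (n + m)) := by
  refine ⟨main, ?_⟩
  intro N n m S T A K hK hS hSf hd hT hcov hm
  have hK2 : 1 ≤ (3 * K ^ 3 + 1) / 2 := by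
    have : 1 ≤ K ^ 3 := one_le_pow₀ hK
    linarith
  have h1 := main N n m S T (fun _ => (3 * K ^ 3 + 1) / 2) hS (fun i => Or.inr (Or.inr
    ⟨hSf i, by
      have h := pow_le_pow_left₀ (Nat.cast_nonneg _) (hd i) 3
      rw [mul_pow] at h
      nlinarith [h]⟩)) hT hcov
  have h2 := sm_le m
  have h3 : ((m : ℝ) + 1) ^ m ≤ Real.exp A ^ (n + m) := by
    have e1 : ((m : ℝ) + 1) ^ m ≤ ((n : ℝ) + m + 1) ^ m :=
      pow_le_pow_left₀ (by positivity) (by linarith [(Nat.cast_nonneg n : (0 : ℝ) ≤ n)]) m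
    have e2 : ((n : ℝ) + m + 1) ^ m = Real.exp ((m : ℝ) * Real.log ((n : ℝ) + m + 1)) := by
      rw [Real.exp_nat_mul, Real.exp_log (by positivity)]
    have e3 : Real.exp A ^ (n + m) = Real.exp (A * ((n : ℝ) + m)) := by
      rw [← Real.exp_nat_mul]
      congr 1
      push_cast
      ring
    rw [e3]
    refine e1.trans ?_
    rw [e2]
    exact Real.exp_le_exp.2 hm
  have h4 : (∏ _i : Fin n, (3 * K ^ 3 + 1) / 2) ≤ ((3 * K ^ 3 + 1) / 2) ^ (n + m) := by
    rw [Finset.prod_const, Finset.card_univ, Fintype.card_fin]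
    exact pow_le_pow_right₀ hK2 (Nat.le_add_right _ _)
  calc (N : ℝ) + 1 ≤ _ := h1
    _ ≤ Real.exp A ^ (n + m) * ((3 * K ^ 3 + 1) / 2) ^ (n + m) :=
        mul_le_mul (h2.trans h3) h4 (Finset.prod_nonneg fun _ _ => by linarith) (by positivity)
    _ = _ := by rw [mul_pow]

end Pool.Agent.Results.MP_a603b0_co.BoundedDoubling
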