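import Mathlib
import Pool.Agent.SCHL.Dich

/-!
# Schur numbers: sum-free sets which at every scale are dense or have few runs

Question Q1 asks for a constant `C` such that `{1, ..., N}` can be covered by `n` sum-free sets only if
`N ≤ C ^ n`. We prove `N + 1 ≤ (655360 K / δ) ^ n` if each of the `n` classes `S` has the following
property: for every `x ≥ 1`, either `[0, x)` contains at least `δ x` integers no two of which differ by
an element of `S` (this is so if some interval of length `x` contains `δ x` elements of `S`), or `S`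
meets `[x, 2 K x)` in at most `K` runs of consecutive integers. So with `K` and `δ` fixed the
bound is exponential, and if `K / δ ≤ c n`, with an absolute constant `c > 0`, it is smaller than
Schur's bound `e n!`. Also `m` arbitrary sum-free sets are allowed, at the cost of Schur's factor
`m! (1 + 1/1! + ... + 1/m!)` for them.

The classes need not be sum-free if the second condition is replaced by the following one for some
`M` at which the first one holds: for some `p` which is at most all elements of `S` above `M`, the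
elements above `M` in `[x, 2 K x)` are covered by at most `K` intervals of `p` consecutive integers, for
every `x`. (If `S` is sum-free, each run of consecutive integers in `S` has at most `min S` elements.)

Proof. For the set of the elements of `S` above `M` there is a rational number `θ` such that `θ s` is at
distance at least `1 / (131072 K)` from the nearest integer, for all `s` in the set. This is found by
removing from an interval the bad numbers of one dyadic block after the other, from the smallest `s` on,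
as in the work of Katznelson, Ruzsa, Peres and Schlag on chromatic numbers of Cayley graphs with
lacunary connection sets: the bad set of the block `[2 ^ l, 2 ^ (l + 1))` is nearly independent of what
happened before the last `log K + O(1)` blocks, and the sum of the relative measures of the bad sets of
these blocks is less than `1 / 2`; the bad sets of all the numbers in one interval of `p` consecutive
integers are controlled together. Hence for any `L` there are `L / (131072 K)` integers in `[0, L)` no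
two of which differ by an element of `S` above `M`. For the elements up to `M` one finds `δ L / 5` such
integers in an interval of length `L` by packing translates of the set given for the scale `M`.
Averaging over independent translates of such sets, two for each class, one finds a set of at
least `(N + 1) / ∏ (655360 K i / δ i)` integers in `[0, N]`, all of whose positive differences are in
the remaining classes, and Schur's argument applies to that set.
-/

set_option autoImplicit false

namespace Pool.Agent.Results.MP_a603b0_co.FewIntervals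

/-- `S` is sum-free: no `x + y = z` in `S`, where `x = y` is allowed. -/
def SumFree (S : Set ℤ) : Prop := ∀ x ∈ S, ∀ y ∈ S, x + y ∉ S

/-- `[0, x)` contains at least `δ x` integers no two of which differ by an element of `S`. -/
def FreeAt (S : Finset ℤ) (δ : ℝ) (x : ℕ) : Prop :=
  ∃ X : Finset ℤ, X ⊆ Finset.Ico 0 (x : ℤ) ∧ (∀ a ∈ X, ∀ b ∈ X, a - b ∉ S) ∧ δ * x ≤ (X.card : ℝ)

/-- For some `M` and `p`: `S` is free at the scale `M`, the elements of `S` above `M` are at least
`p`, and for every `x` those in `[x, 2 K x)` are covered by at most `K` intervals `[a, a + p)`. -/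
def Tame (S : Finset ℤ) (K : ℕ) (δ : ℝ) : Prop :=
  ∃ (M : ℕ) (p : ℤ), FreeAt S δ M ∧ 1 ≤ p ∧ (∀ s ∈ S, (M : ℤ) < s → p ≤ s) ∧
    ∀ x : ℤ, ∃ A : Finset ℤ, A.card ≤ K ∧
      ∀ s ∈ S, (M : ℤ) < s → x ≤ s → s < 2 * K * x → ∃ a ∈ A, a ≤ s ∧ s < a + p

/-- The first elements of the runs of consecutive integers in `S ∩ [x, 2 K x)`. -/
def runs (S : Finset ℤ) (K : ℕ) (x : ℤ) : Finset ℤ :=
  S.filter (fun s => x ≤ s ∧ s < 2 * K * x ∧ (s = x ∨ s - 1 ∉ S))

/-- For every `x ≥ 1`, `S` is free at the scale `x` or has at most `K` runs in `[x, 2 K x)`. -/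
def FreeOrFewRuns (S : Finset ℤ) (K : ℕ) (δ : ℝ) : Prop :=
  ∀ x : ℕ, 1 ≤ x → FreeAt S δ x ∨ (runs S K x).card ≤ K

theorem sm_le (m : ℕ) : (∑ k ∈ Finset.range (m + 1), (m.descFactorial k : ℝ)) ≤ ((m : ℝ) + 1) ^ m := by
  have h : ∀ k ∈ Finset.range (m + 1),
      (m.descFactorial k : ℝ) ≤ (m : ℝ) ^ k * 1 ^ (m - k) * (m.choose k : ℝ) := by
    intro k hk
    rw [Finset.mem_range] at hk
    have h1 : (m.descFactorial k : ℝ) ≤ (m : ℝ) ^ k := by exact_mod_cast Nat.descFactorial_le_pow m k
    have h2 : (1 : ℝ) ≤ (m.choose k : ℝ) := by exact_mod_cast Nat.choose_pos (by omega)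
    rw [one_pow, mul_one]
    calc (m.descFactorial k : ℝ) ≤ (m : ℝ) ^ k * 1 := by rw [mul_one]; exact h1
      _ ≤ (m : ℝ) ^ k * (m.choose k : ℝ) := mul_le_mul_of_nonneg_left h2 (by positivity)
  rw [add_pow]
  exact Finset.sum_le_sum h

/-- Let `{1, ..., N}` be covered by finite sets `S 1, ..., S n` of positive integers and arbitrary
sum-free sets `T 1, ..., T m`, and let `K i ≥ 1`, `0 < δ i ≤ 1`.
* If all `S i` are tame, with `K i` and `δ i`, then `N + 1 ≤ (∑_{l ≤ m} m! / l!) ∏ (655360 K i / δ i)`.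
* If moreover `K i = K`, `δ i = δ` and `m log (n + m + 1) ≤ A (n + m)`, then
  `N + 1 ≤ (exp A * 655360 K / δ) ^ (n + m)`.
* A finite sum-free set of positive integers which at every scale is free or has few runs is tame. -/
theorem result :
    (∀ (N n m : ℕ) (S : Fin n → Finset ℤ) (T : Fin m → Set ℤ) (K : Fin n → ℕ) (δ : Fin n → ℝ),
      (∀ i, 1 ≤ K i) → (∀ i, 0 < δ i) → (∀ i, δ i ≤ 1) → (∀ i, ∀ s ∈ S i, 1 ≤ s) →
      (∀ i, Tame (S i) (K i) (δ i)) → (∀ j, SumFree (T j)) →
      (∀ x : ℤ, 1 ≤ x → x ≤ N → (∃ i, x ∈ S i) ∨ ∃ j, x ∈ T j) →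
      (N : ℝ) + 1 ≤ (∑ l ∈ Finset.range (m + 1), (m.descFactorial l : ℝ)) *
        ∏ i, (655360 * (K i : ℝ) / δ i)) ∧
    (∀ (N n m K : ℕ) (S : Fin n → Finset ℤ) (T : Fin m → Set ℤ) (δ A : ℝ), 1 ≤ K →
      0 < δ → δ ≤ 1 → (∀ i, ∀ s ∈ S i, 1 ≤ s) → (∀ i, Tame (S i) K δ) → (∀ j, SumFree (T j)) →
      (∀ x : ℤ, 1 ≤ x → x ≤ N → (∃ i, x ∈ S i) ∨ ∃ j, x ∈ T j) →
      (m : ℝ) * Real.log ((n : ℝ) + m + 1) ≤ A * ((n : ℝ) + m) →
      (N : ℝ) + 1 ≤ (Real.exp A * (655360 * (K : ℝ) / δ)) ^ (n + m)) ∧
    (∀ (S : Finset ℤ) (K : ℕ) (δ : ℝ), (∀ s ∈ S, 1 ≤ s) → SumFree S → FreeOrFewRuns S K δ →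
      Tame S K δ) := by
  have first : ∀ (N n m : ℕ) (S : Fin n → Finset ℤ) (T : Fin m → Set ℤ) (K : Fin n → ℕ)
      (δ : Fin n → ℝ), (∀ i, 1 ≤ K i) → (∀ i, 0 < δ i) → (∀ i, δ i ≤ 1) →
      (∀ i, ∀ s ∈ S i, 1 ≤ s) → (∀ i, Tame (S i) (K i) (δ i)) → (∀ j, SumFree (T j)) →
      (∀ x : ℤ, 1 ≤ x → x ≤ N → (∃ i, x ∈ S i) ∨ ∃ j, x ∈ T j) →
      (N : ℝ) + 1 ≤ (∑ l ∈ Finset.range (m + 1), (m.descFactorial l : ℝ)) *
        ∏ i, (655360 * (K i : ℝ) / δ i) :=
    fun N n m S T K δ hK hδ hδ1 hp hr hT hcov =>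
      Pool.Agent.SCHL.prod_tame N n m S T K δ hK hδ hδ1 hp hr hT hcov
  refine ⟨first, ?_, fun S K δ hp hS h => Pool.Agent.SCHL.tame_of_mixed S K δ
    (fun x hx y hy hxy => hS x (by exact_mod_cast hx) y (by exact_mod_cast hy)
      (by exact_mod_cast hxy)) hp h⟩
  intro N n m K S T δ A hK hδ hδ1 hp hr hT hcov hm
  have hk1 : (1 : ℝ) ≤ (K : ℝ) := by exact_mod_cast hK
  have hK2 : 1 ≤ 655360 * (K : ℝ) / δ := by
    rw [le_div_iff₀ hδ]
    linarith
  have h1 := first N n m S T (fun _ => K) (fun _ => δ) (fun _ => hK) (fun _ => hδ) (fun _ => hδ1)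
    hp hr hT hcov
  have h2 := sm_le m
  have h3 : ((m : ℝ) + 1) ^ m ≤ Real.exp A ^ (n + m) := by
    have e1 : ((m : ℝ) + 1) ^ m ≤ ((n : ℝ) + m + 1) ^ m :=
      pow_le_pow_left₀ (by positivity) (by linarith [(Nat.cast_nonneg n : (0 : ℝ) ≤ n)]) m
    have e2 : ((n : ℝ) + m + 1) ^ m = Real.exp ((m : ℝ) * Real.log ((n : ℝ) + m + 1)) := by
      rw [Real.exp_nat_mul, Real.exp_log (by positivity)]
    have e3 : Real.exp A ^ (n + m) = Real.exp (A * ((n : ℝ) + m)) := by
      rw [← Real.exp_nat_mul]
      congr 1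
      push_cast
      ring
    rw [e3]
    refine e1.trans ?_
    rw [e2]
    exact Real.exp_le_exp.2 hm
  have h4 : (∏ _i : Fin n, (655360 * (K : ℝ) / δ)) ≤ (655360 * (K : ℝ) / δ) ^ (n + m) := by
    rw [Finset.prod_const, Finset.card_univ, Fintype.card_fin]
    exact pow_le_pow_right₀ hK2 (Nat.le_add_right _ _)
  calc (N : ℝ) + 1 ≤ _ := h1
    _ ≤ Real.exp A ^ (n + m) * (655360 * (K : ℝ) / δ) ^ (n + m) :=
        mul_le_mul (h2.trans h3) h4 (Finset.prod_nonneg fun _ _ => by linarith) (by positivity)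
    _ = _ := (mul_pow _ _ _).symm

end Pool.Agent.Results.MP_a603b0_co.FewIntervals
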