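import Mathlib
import Pool.Agent.SCHL.Gaps

/-!
# Schur numbers: the number of scales with dense classes or few runs is at most linear

Question Q1 asks for a constant `C` such that `{1, ..., N}` can be covered by `n` sum-free sets only if
`N ≤ C ^ n`. Fix `K`, `D ≥ 2 K` and `0 < δ ≤ 1`, and call a scale `j ≤ log_D N` good if each class `S`
* meets the interval `[D ^ j, D ^ (j + 1))` in at most `K` runs of consecutive integers, or
* is free at some power `x` of `D` larger than `D ^ j`: there are at least `δ x` integers in `[0, x)` no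
  two of which differ by an element of `S` (as `S` is sum-free, this is so if it has `δ x` elements in an
  interval of length `x`). So a class with at least `δ D ^ l` elements up to `D ^ l` is no obstacle at any
  scale `j < l`.

We prove that the number `g` of good scales is at most `O(n)`, no matter how large `N` is:
`(D ^ 2 / (D + 1)) ^ g ≤ (D + 1) (3276800 K / δ) ^ n`. So if a proportion of at least `η > 0` of the
scales is good, then `N ≤ C ^ n` with `C = C(K, D, δ, η)`. In other words, if Schur numbers grow faster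
than exponentially, then in the extremal partitions all but `O(n)` scales are bad, that is, all scales
up to a proportion `o(1)`. Also `m` arbitrary sum-free sets are allowed, at the cost of Schur's factor
for them.

Proof. For each block of `t` consecutive bad scales the interval `[D ^ j, D ^ (j + t))` is added to the
covering as one set; the integers `s` with `s mod (D ^ t + 1) D ^ j < D ^ j` have density
`1 / (D ^ t + 1)` and no difference in it. There are at most `g + 1` blocks. Let `M` be the largest power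
of `D` at which the class `S` is free (one larger than `N`, if there are such). By packing translates
there is a set of integers of density `δ / 5` without differences among the elements of `S` up to `M`. The
elements above `M` at the good scales form a set which meets every `[x, 10 K x)` within `5 K` intervals
of at most `min S` consecutive integers; by a removal argument over the scales as in the work of Katznelson,
Ruzsa, Peres and Schlag on lacunary sets there is a set of integers of density `1 / (655360 K)` without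
differences in it. Averaging over independent translates of all these sets one finds at least
`(N + 1) / ((3276800 K / δ) ^ n D ^ b (1 + 1 / D) ^ (g + 1))` integers in `[0, N]` all of whose positive
differences are in the `m` arbitrary sum-free sets, to which Schur's argument applies. Finally
`D ^ (b + g - 1) ≤ N`.
-/

set_option autoImplicit false

namespace Pool.Agent.Results.MP_a603b0_co.GoodScales

/-- `S` is sum-free: no `x + y = z` in `S`, where `x = y` is allowed. -/
def SumFree (S : Set ℤ) : Prop := ∀ x ∈ S, ∀ y ∈ S, x + y ∉ S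

/-- `[0, x)` contains at least `δ x` integers no two of which differ by an element of `S`. -/
def FreeAt (S : Finset ℤ) (δ : ℝ) (x : ℕ) : Prop :=
  ∃ X : Finset ℤ, X ⊆ Finset.Ico 0 (x : ℤ) ∧ (∀ a ∈ X, ∀ b ∈ X, a - b ∉ S) ∧ δ * x ≤ (X.card : ℝ)

/-- The first elements of the runs of consecutive integers in `S ∩ [x, y)`. -/
def runs (S : Finset ℤ) (x y : ℤ) : Finset ℤ :=
  S.filter (fun s => x ≤ s ∧ s < y ∧ (s = x ∨ s - 1 ∉ S))

/-- Some `S i` is free at no `D ^ l` with `l > j` and has more than `K` runs in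
`[D ^ j, D ^ (j + 1))`. -/
def Bad {n : ℕ} (S : Fin n → Finset ℤ) (δ : ℝ) (D K j : ℕ) : Prop :=
  ∃ i, (∀ l, j < l → ¬ FreeAt (S i) δ (D ^ l)) ∧
    K < (runs (S i) ((D : ℤ) ^ j) ((D : ℤ) ^ (j + 1))).card

/-- The bad scales `j ≤ log_D N`. -/
def badScales {n : ℕ} (S : Fin n → Finset ℤ) (δ : ℝ) (D K N : ℕ) : Set ℕ :=
  {j | j ≤ Nat.log D N ∧ Bad S δ D K j}

/-- The good scales `j ≤ log_D N`. -/
def goodScales {n : ℕ} (S : Fin n → Finset ℤ) (δ : ℝ) (D K N : ℕ) : Set ℕ :=
  {j | j ≤ Nat.log D N ∧ ¬ Bad S δ D K j}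

open Classical in
theorem badScales_eq {n : ℕ} (S : Fin n → Finset ℤ) (δ : ℝ) (D K N : ℕ) :
    badScales S δ D K N =
      ((Finset.range (Nat.log D N + 1)).filter (fun j => Bad S δ D K j) : Finset ℕ) := by
  ext j
  simp [badScales]

open Classical in
theorem goodScales_eq {n : ℕ} (S : Fin n → Finset ℤ) (δ : ℝ) (D K N : ℕ) :
    goodScales S δ D K N =
      ((Finset.range (Nat.log D N + 1)).filter (fun j => ¬ Bad S δ D K j) : Finset ℕ) := by
  ext j
  simp [goodScales]

theorem card_scales {n : ℕ} (S : Fin n → Finset ℤ) (δ : ℝ) (D K N : ℕ) :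
    (badScales S δ D K N).ncard + (goodScales S δ D K N).ncard = Nat.log D N + 1 := by
  classical
  rw [badScales_eq, goodScales_eq, Set.ncard_coe_finset, Set.ncard_coe_finset,
    Finset.card_filter_add_card_filter_not, Finset.card_range]

/-- The bound for the number of good scales. -/
theorem ratio_form (N D b g : ℕ) (P : ℝ) (hD : 2 ≤ D) (hbg : b + g = Nat.log D N + 1)
    (h : (N : ℝ) + 1 ≤ P * ((D : ℝ) ^ b * (1 + 1 / (D : ℝ)) ^ (g + 1))) :
    ((D : ℝ) ^ 2 / (D + 1)) ^ g ≤ (D + 1) * P := by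
  have hD1 : (2 : ℝ) ≤ (D : ℝ) := by exact_mod_cast hD
  have hD0 : (0 : ℝ) < (D : ℝ) := by linarith
  have h1 : (D : ℝ) ^ (Nat.log D N) ≤ (N : ℝ) + 1 := by
    rcases Nat.eq_zero_or_pos N with h0 | h0
    · rw [h0]
      simp
    · have : D ^ (Nat.log D N) ≤ N := Nat.pow_log_le_self D (by omega)
      have h2 : ((D ^ (Nat.log D N) : ℕ) : ℝ) ≤ (N : ℝ) := by exact_mod_cast this
      push_cast at h2
      linarith
  have h2 : (D : ℝ) ^ (b + g) ≤ D * (P * ((D : ℝ) ^ b * (1 + 1 / (D : ℝ)) ^ (g + 1))) := by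
    rw [hbg, pow_succ']
    exact mul_le_mul_of_nonneg_left (h1.trans h) hD0.le
  have h3 : (D : ℝ) ^ g ≤ D * (P * (1 + 1 / (D : ℝ)) ^ (g + 1)) := by
    refine le_of_mul_le_mul_left ?_ (show (0 : ℝ) < (D : ℝ) ^ b by positivity)
    calc (D : ℝ) ^ b * (D : ℝ) ^ g = (D : ℝ) ^ (b + g) := by rw [pow_add]
      _ ≤ _ := h2
      _ = _ := by ring
  have h4 : (D : ℝ) ^ g * (D : ℝ) ^ g ≤ P * ((D : ℝ) + 1) ^ (g + 1) := by
    have e : (D : ℝ) * (1 + 1 / (D : ℝ)) = D + 1 := by field_simp
    calc (D : ℝ) ^ g * (D : ℝ) ^ g ≤ (D : ℝ) ^ g * (D * (P * (1 + 1 / (D : ℝ)) ^ (g + 1))) :=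
          mul_le_mul_of_nonneg_left h3 (by positivity)
      _ = P * ((D : ℝ) * (1 + 1 / (D : ℝ))) ^ (g + 1) := by rw [mul_pow]; ring
      _ = _ := by rw [e]
  rw [div_pow, div_le_iff₀ (by positivity)]
  calc ((D : ℝ) ^ 2) ^ g = (D : ℝ) ^ g * (D : ℝ) ^ g := by rw [← pow_mul, two_mul, pow_add]
    _ ≤ _ := h4
    _ = _ := by ring

/-- A positive proportion of good scales. -/
theorem proportion (N D g : ℕ) (R η : ℝ) (hD : 2 ≤ D) (hη : 0 < η)
    (hg : η * ((Nat.log D N : ℝ) + 1) ≤ g) (h : ((D : ℝ) ^ 2 / (D + 1)) ^ g ≤ R) :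
    (N : ℝ) + 1 ≤ R ^ (3 / η) := by
  have hD1 : (2 : ℝ) ≤ (D : ℝ) := by exact_mod_cast hD
  have hD0 : (0 : ℝ) < (D : ℝ) := by linarith
  set q : ℝ := (D : ℝ) ^ 2 / (D + 1) with hq
  have hq1 : 2 * (D : ℝ) / 3 ≤ q := by
    rw [hq, div_le_div_iff₀ (by norm_num) (by linarith)]
    nlinarith
  have hq0 : 1 ≤ q := by linarith
  have hq3 : (D : ℝ) ≤ q ^ 3 := by
    have h1 : (2 * (D : ℝ) / 3) ^ 3 ≤ q ^ 3 := pow_le_pow_left₀ (by positivity) hq1 3
    refine le_trans ?_ h1
    have h2 : (4 : ℝ) ≤ (D : ℝ) ^ 2 := by nlinarith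
    have h3 : (2 * (D : ℝ) / 3) ^ 3 = D * ((D : ℝ) ^ 2 * (8 / 27)) := by ring
    rw [h3]
    nlinarith
  have h1 : (N : ℝ) + 1 ≤ q ^ (3 * (Nat.log D N + 1)) := by
    have h2 : N < D ^ (Nat.log D N + 1) := Nat.lt_pow_succ_log_self (by omega) N
    have h3 : (N : ℝ) + 1 ≤ (D : ℝ) ^ (Nat.log D N + 1) := by exact_mod_cast h2
    refine h3.trans ?_
    rw [pow_mul]
    exact pow_le_pow_left₀ hD0.le hq3 _
  have h2 : (3 * ((Nat.log D N : ℝ) + 1)) ≤ g * (3 / η) := by
    rw [mul_div_assoc', le_div_iff₀ hη]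
    linarith
  have h3 : q ^ (3 * (Nat.log D N + 1)) ≤ (q ^ g) ^ (3 / η) := by
    rw [← Real.rpow_natCast q g, ← Real.rpow_mul (by linarith), ← Real.rpow_natCast q]
    refine Real.rpow_le_rpow_of_exponent_le hq0 ?_
    push_cast
    exact h2
  exact (h1.trans h3).trans (Real.rpow_le_rpow (by positivity) h (by positivity))

/-- Let `1 ≤ K`, `2 K ≤ D`, `0 < δ ≤ 1`, and let `{1, ..., N}` be covered by finite sum-free sets
`S 1, ..., S n` of positive integers and arbitrary sum-free sets `T 1, ..., T m`. Let `b` and `g` be the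
numbers of bad and good scales; `b + g` is the number of `j` with `0 ≤ j ≤ log_D N`. Let
`R = (∑_{l ≤ m} m! / l!) (3276800 K / δ) ^ n`.
* `N + 1 ≤ R D ^ b (1 + 1 / D) ^ (g + 1)`;
* `(D ^ 2 / (D + 1)) ^ g ≤ (D + 1) R`;
* if `g ≥ η (b + g)` with `η > 0`, then `N + 1 ≤ ((D + 1) R) ^ (3 / η)`. -/
theorem result (N n m D K : ℕ) (δ : ℝ) (S : Fin n → Finset ℤ) (T : Fin m → Set ℤ) (hK : 1 ≤ K)
    (hD : 2 * K ≤ D) (hδ : 0 < δ) (hδ1 : δ ≤ 1) (hp : ∀ i, ∀ s ∈ S i, 1 ≤ s)
    (hS : ∀ i, SumFree (S i)) (hT : ∀ j, SumFree (T j))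
    (hcov : ∀ x : ℤ, 1 ≤ x → x ≤ N → (∃ i, x ∈ S i) ∨ ∃ j, x ∈ T j) :
    (badScales S δ D K N).ncard + (goodScales S δ D K N).ncard = Nat.log D N + 1 ∧
    (N : ℝ) + 1 ≤ ((∑ l ∈ Finset.range (m + 1), (m.descFactorial l : ℝ)) *
      (3276800 * (K : ℝ) / δ) ^ n) * ((D : ℝ) ^ (badScales S δ D K N).ncard *
        (1 + 1 / (D : ℝ)) ^ ((goodScales S δ D K N).ncard + 1)) ∧
    ((D : ℝ) ^ 2 / (D + 1)) ^ (goodScales S δ D K N).ncard ≤
      (D + 1) * ((∑ l ∈ Finset.range (m + 1), (m.descFactorial l : ℝ)) *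
        (3276800 * (K : ℝ) / δ) ^ n) ∧
    ∀ η : ℝ, 0 < η → η * ((Nat.log D N : ℝ) + 1) ≤ ((goodScales S δ D K N).ncard : ℝ) →
      (N : ℝ) + 1 ≤ ((D + 1) * ((∑ l ∈ Finset.range (m + 1), (m.descFactorial l : ℝ)) *
        (3276800 * (K : ℝ) / δ) ^ n)) ^ (3 / η) := by
  classical
  have h1 := card_scales S δ D K N
  have h2 : (N : ℝ) + 1 ≤ ((∑ l ∈ Finset.range (m + 1), (m.descFactorial l : ℝ)) *
      (3276800 * (K : ℝ) / δ) ^ n) * ((D : ℝ) ^ (badScales S δ D K N).ncard *
        (1 + 1 / (D : ℝ)) ^ ((goodScales S δ D K N).ncard + 1)) := by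
    have e : (goodScales S δ D K N).ncard + 1 =
        Nat.log D N + 2 - (badScales S δ D K N).ncard := by omega
    rw [e, mul_assoc, badScales_eq, Set.ncard_coe_finset]
    refine Pool.Agent.SCHL.gaps N n m D K δ S T hK hD hδ hδ1 hp
      (fun i x hx y hy hxy => hS i x (by exact_mod_cast hx) y (by exact_mod_cast hy)
        (by exact_mod_cast hxy)) hT hcov _ ?_ ?_
    · intro j hj1 hj2
      rw [Finset.mem_filter, Finset.mem_range]
      exact ⟨by omega, hj2⟩
    · intro j hj
      rw [Finset.mem_filter, Finset.mem_range] at hj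
      omega
  have h3 := ratio_form N D _ _ _ (by omega) h1 h2
  exact ⟨h1, h2, h3, fun η h4 h5 => proportion N D _ _ η (by omega) h4 h5 h3⟩

end Pool.Agent.Results.MP_a603b0_co.GoodScales
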